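import Mathlib
import Pool.Agent.Lib.MP_05e181_co.Key

set_option autoImplicit false

namespace Pool.Agent.Results.MP_05e181_co.Full

open Pool.Agent.Lib.MP_05e181_co

/-- `G` is `k`-connected: more than `k` vertices, and `G - X` is connected whenever `|X| < k`. -/
def KConnected {V : Type} [Fintype V] (G : SimpleGraph V) (k : ℕ) : Prop :=
  k < Fintype.card V ∧ ∀ X : Finset V, X.card < k → (G.induce {v | v ∉ X}).Connected

/-- `G` has a Hamiltonian path: a path through all vertices. -/
def Traceable {V : Type} (G : SimpleGraph V) : Prop :=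
  ∃ (u v : V) (p : G.Walk u v), p.IsPath ∧ ∀ w : V, w ∈ p.support

/-- If `a ∈ X`, `w ∉ X` are joined outside `C`, some edge leaves `X` outside `C`. -/
theorem exists_exit {V : Type} {G : SimpleGraph V} {C : Set V} (X : Set V) :
    ∀ {a w : C} (_ : (G.induce C).Walk a w), (a : V) ∈ X → (w : V) ∉ X →
      ∃ x ∈ X, ∃ y ∈ C, y ∉ X ∧ G.Adj x y := by
  intro a w p
  induction p with
  | nil => intro h1 h2; exact absurd h1 h2
  | @cons u v w h p ih =>
    intro h1 h2
    by_cases hv : (v : V) ∈ X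
    · exact ih hv h2
    · exact ⟨u, h1, v, v.2, hv, h⟩

theorem result (V : Type) [Fintype V] (G : SimpleGraph V) (k : ℕ) (hk : 1 ≤ k)
    (hconn : KConnected G k) (hnt : ¬ Traceable G) :
    ∃ S : Finset V, S.card = k + 1 ∧ G.IsIndepSet (S : Set V) ∧
      ∃ (u v : V) (p : G.Walk u v), p.IsPath ∧
        ∀ s ∈ S, s ∈ p.support ∧ ∀ w : V, G.Adj s w → w ∈ p.support := by
  classical
  have hs : ∀ a b, G.Adj a b → G.Adj b a := fun a b h => h.symm
  -- a longest path, as a list
  let P : ℕ → Prop := fun n => ∃ l : List V, l.length = n ∧ l.Nodup ∧ l.IsChain G.Adj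
  have hP0 : P 0 := ⟨[], rfl, List.nodup_nil, List.IsChain.nil⟩
  obtain ⟨F, hFl, hFnd, hFc⟩ : P (Nat.findGreatest P (Fintype.card V)) :=
    Nat.findGreatest_spec (Nat.zero_le _) hP0
  have hmax : ∀ l : List V, l.Nodup → l.IsChain G.Adj → l.length ≤ F.length := by
    intro l h1 h2
    rw [hFl]
    exact Nat.le_findGreatest (h1.length_le_card) ⟨l, rfl, h1, h2⟩
  have hcard : 2 ≤ Fintype.card V := by have := hconn.1; omega
  -- leaving a set
  have hexit : ∀ (X : Set V) (C : Finset V), C.card < k → ∀ a w, a ∈ X → a ∉ C → w ∉ X → w ∉ C →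
      ∃ x ∈ X, ∃ y, y ∉ C ∧ y ∉ X ∧ G.Adj x y := by
    intro X C hC a w ha haC hw hwC
    obtain ⟨p⟩ := (hconn.2 C hC).preconnected ⟨a, haC⟩ ⟨w, hwC⟩
    obtain ⟨x, hx, y, hy, hyX, hxy⟩ := exists_exit X p ha hw
    exact ⟨x, hx, y, hy, hyX, hxy⟩
  have hF2 : 2 ≤ F.length := by
    obtain ⟨a, b, hab⟩ := Fintype.exists_pair_of_one_lt_card (α := V) (by omega)
    obtain ⟨x, hx, y, -, hy, hxy⟩ := hexit {a} ∅ (by simp; omega) a b (by simp) (by simp)
      (by simpa using hab.symm) (by simp)
    exact hmax [x, y] (by simpa using hxy.ne) (by simpa using hxy)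
  have hFne : F ≠ [] := by rintro rfl; simp at hF2
  -- a vertex outside the path
  obtain ⟨w0, hw0⟩ : ∃ w0, w0 ∉ F := by
    by_contra hcon
    push Not at hcon
    refine hnt ⟨_, _, SimpleGraph.Walk.ofSupport F hFne hFc, ?_, ?_⟩
    · rw [SimpleGraph.Walk.isPath_def, SimpleGraph.Walk.support_ofSupport]
      exact hFnd
    · intro w
      rw [SimpleGraph.Walk.support_ofSupport]
      exact hcon w
  set z : V := F.getLast hFne with hz
  have hHam : Ham G.Adj F z F := ⟨List.Perm.refl _, hFc, List.getLast?_eq_some_getLast _⟩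
  -- first vertices of longest paths have all their neighbours on the path
  have hsat : ∀ (a : V) (l : List V), List.Perm (a :: l) F → (a :: l).IsChain G.Adj →
      ∀ w, G.Adj a w → w ∈ F := by
    intro a l hp hc w haw
    by_contra hw
    have h1 : (w :: a :: l).Nodup :=
      List.nodup_cons.2 ⟨fun h => hw (hp.subset h), hp.nodup_iff.2 hFnd⟩
    have h2 := hmax (w :: a :: l) h1 (List.isChain_cons_cons.2 ⟨haw.symm, hc⟩)
    have h3 := hp.length_eq
    simp at h2 h3
    omega
  have hsatS : ∀ a, Start G.Adj F z a → ∀ w, G.Adj a w → w ∈ F := by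
    rintro a ⟨l, hp, hc, -⟩
    exact hsat a l hp hc
  have hmemS : ∀ a, Start G.Adj F z a → a ∈ F := by
    rintro a ⟨l, hp, -, -⟩
    exact hp.subset (by simp)
  have hsatz : ∀ w, G.Adj z w → w ∈ F := by
    obtain ⟨l, hl⟩ := eq_append_of_getLast? hHam.2.2
    refine hsat z l.reverse ?_ ?_
    · have : z :: l.reverse = F.reverse := by rw [hl]; simp
      rw [this]; exact List.reverse_perm _
    · have : z :: l.reverse = F.reverse := by rw [hl]; simp
      rw [this]; exact chain_rev hs hFc
  -- starts are not adjacent to the end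
  have hnz : ∀ a, Start G.Adj F z a → ¬ G.Adj z a := by
    rintro a ⟨l, hp, hc, hl⟩ hza
    obtain ⟨x, hx, y, -, hy, hxy⟩ := hexit {v | v ∈ F} ∅ (by simp; omega) a w0
      (hp.subset (by simp)) (by simp) hw0 (by simp)
    obtain ⟨A, B, hAB⟩ := List.append_of_mem (hp.symm.subset hx)
    refine hy (hsat x (B ++ A) ?_ ?_ y hxy)
    · refine List.Perm.trans ?_ hp
      rw [hAB]
      exact (List.perm_append_comm (l₁ := x :: B) (l₂ := A))
    · have hc' := hc
      rw [hAB, List.isChain_append] at hc'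
      have e : x :: (B ++ A) = (x :: B) ++ A := rfl
      rw [e, List.isChain_append]
      refine ⟨hc'.2.1, hc'.1, ?_⟩
      intro u hu v hv
      rw [hAB, getLast?_app] at hl
      rw [hl] at hu
      cases A with
      | nil => simp at hv
      | cons c t =>
        simp at hAB hu hv
        rw [← hu, ← hv, ← hAB.1]
        exact hza
  obtain ⟨X, S, ⟨a, haX⟩, hX, hS, -, hSz, hind, hc⟩ :=
    key hs F.length F z rfl hF2 hFnd hHam
  have hkS : k ≤ S.card := by
    by_contra hlt
    push Not at hlt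
    obtain ⟨x, hx, y, hyC, hyX, hxy⟩ := hexit (X : Set V) _ (lt_of_le_of_lt hc hlt) a w0 haX
      (by simp [haX]) (fun h => hw0 (hmemS _ (hX _ h))) (by simp [hw0])
    refine hyC (Finset.mem_filter.2 ⟨List.mem_toFinset.2 (hsatS x (hX x hx) y hxy), hyX, x, hx, hxy⟩)
  obtain ⟨S', hS'S, hS'c⟩ := Finset.exists_subset_card_eq hkS
  have hzS' : z ∉ S' := fun h => hSz z (hS'S h) rfl
  refine ⟨insert z S', by rw [Finset.card_insert_of_notMem hzS', hS'c], ?_, _, _,
    SimpleGraph.Walk.ofSupport F hFne hFc, ?_, ?_⟩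
  · intro x hx y hy hxy
    simp only [Finset.coe_insert, Set.mem_insert_iff, Finset.mem_coe] at hx hy
    rcases hx with rfl | hx <;> rcases hy with rfl | hy
    · exact absurd rfl hxy
    · exact hnz y (hS y (hS'S hy))
    · exact fun h => hnz x (hS x (hS'S hx)) h.symm
    · exact hind x (hS'S hx) y (hS'S hy) hxy
  · rw [SimpleGraph.Walk.isPath_def, SimpleGraph.Walk.support_ofSupport]
    exact hFnd
  · intro s hs'
    rw [SimpleGraph.Walk.support_ofSupport]
    rcases Finset.mem_insert.1 hs' with rfl | h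
    · exact ⟨List.getLast_mem _, hsatz⟩
    · exact ⟨hmemS s (hS s (hS'S h)), hsatS s (hS s (hS'S h))⟩

end Pool.Agent.Results.MP_05e181_co.Full
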